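import Mathlib

/-!
# MP_b9c629_co (Pach–Tardos): hitting rich rectangles, substitution closed classes

`Cl t` is the smallest class of finite planar point sets which contains all sets with at most one
point and is closed under the following operation: take members (blocks) which are pairwise
disjoint and pairwise separated by a vertical and a horizontal line, arranged in `t` monotone chains
of blocks of any length, and form their union.  For `t = 1` these are the separable point sets; in
general they are the sets such that all pieces of the substitution decomposition are unions of at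
most `t` monotone sequences.  We show that such sets, and unions of boundedly many of them, have weak
nets of linear size for axis-parallel rectangles.
-/

set_option autoImplicit false

namespace Pool.Agent.Results.MP_b9c629_co.SubstitutionClosure

open Finset

/-- `B` and `B'` are weakly separated by a vertical line and by a horizontal line. -/
def Sep (B B' : Finset (ℝ × ℝ)) : Prop :=
  ((∀ x ∈ B, ∀ y ∈ B', x.1 ≤ y.1) ∨ (∀ x ∈ B, ∀ y ∈ B', y.1 ≤ x.1)) ∧
  ((∀ x ∈ B, ∀ y ∈ B', x.2 ≤ y.2) ∨ (∀ x ∈ B, ∀ y ∈ B', y.2 ≤ x.2))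

/-- the blocks `B 0, B 1, …` form an increasing or a decreasing chain -/
def Chain {N : ℕ} (B : Fin N → Finset (ℝ × ℝ)) : Prop :=
  (∀ i j, i < j → ∀ x ∈ B i, ∀ y ∈ B j, x.1 ≤ y.1 ∧ x.2 ≤ y.2) ∨
  (∀ i j, i < j → ∀ x ∈ B i, ∀ y ∈ B j, x.1 ≤ y.1 ∧ y.2 ≤ x.2)

/-- the smallest class of finite point sets containing the sets with at most one point and closed
under unions of pairwise disjoint, pairwise separated members arranged in `t` chains -/
inductive Cl (t : ℕ) : Finset (ℝ × ℝ) → Prop
  | small (A : Finset (ℝ × ℝ)) : A.card ≤ 1 → Cl t A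
  | node (N : ℕ) (B : Fin t × Fin N → Finset (ℝ × ℝ)) : (∀ i, Cl t (B i)) →
      (∀ i j, i ≠ j → Disjoint (B i) (B j)) → (∀ i j, i ≠ j → Sep (B i) (B j)) →
      (∀ c, Chain (fun i => B (c, i))) →
      Cl t ((univ : Finset (Fin t × Fin N)).biUnion B)

/-- the points of `A` in the rectangle with corners `p`, `q` -/
noncomputable def inR (A : Finset (ℝ × ℝ)) (p q : ℝ × ℝ) : Finset (ℝ × ℝ) :=
  {x ∈ A | p.1 ≤ x.1 ∧ x.1 ≤ q.1 ∧ p.2 ≤ x.2 ∧ x.2 ≤ q.2}

/-- the rectangle is not hit by `H` -/
def Unhit (H : Finset (ℝ × ℝ)) (p q : ℝ × ℝ) : Prop :=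
  ∀ y ∈ H, ¬ (p.1 ≤ y.1 ∧ y.1 ≤ q.1 ∧ p.2 ≤ y.2 ∧ y.2 ≤ q.2)

/-- the rectangle reaches an end of `A` in both directions -/
def Cor (A : Finset (ℝ × ℝ)) (p q : ℝ × ℝ) : Prop :=
  ((∀ x ∈ A, x.1 ≤ q.1) ∨ (∀ x ∈ A, p.1 ≤ x.1)) ∧
  ((∀ x ∈ A, x.2 ≤ q.2) ∨ (∀ x ∈ A, p.2 ≤ x.2))

theorem inR_biUnion_card {ι : Type} [Fintype ι] [DecidableEq ι] (B : ι → Finset (ℝ × ℝ))
    (p q : ℝ × ℝ) :
    (inR ((univ : Finset ι).biUnion B) p q).card ≤ ∑ i, (inR (B i) p q).card := by
  classical
  have : inR ((univ : Finset ι).biUnion B) p q =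
      (univ : Finset ι).biUnion (fun i => inR (B i) p q) := by
    unfold inR
    rw [filter_biUnion]
  rw [this]
  exact card_biUnion_le

theorem corners (A : Finset (ℝ × ℝ)) : ∃ K : Finset (ℝ × ℝ), K.card ≤ 4 ∧
    ∀ p q, Cor A p q → Unhit K p q → (inR A p q).card = 0 := by
  classical
  by_cases hA : A.Nonempty
  · obtain ⟨xM, hxM, hxM'⟩ := exists_max_image A (fun x => x.1) hA
    obtain ⟨xm, hxm, hxm'⟩ := exists_min_image A (fun x => x.1) hA
    obtain ⟨yM, hyM, hyM'⟩ := exists_max_image A (fun x => x.2) hA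
    obtain ⟨ym, hym, hym'⟩ := exists_min_image A (fun x => x.2) hA
    refine ⟨{(xM.1, yM.2), (xM.1, ym.2), (xm.1, yM.2), (xm.1, ym.2)}, card_le_four, ?_⟩
    intro p q hc hu
    rw [card_eq_zero, eq_empty_iff_forall_notMem]
    intro x hx
    rw [inR, mem_filter] at hx
    obtain ⟨hxA, h1, h2, h3, h4⟩ := hx
    have hx1 : p.1 ≤ xM.1 ∧ xM.1 ≤ q.1 ∨ p.1 ≤ xm.1 ∧ xm.1 ≤ q.1 := by
      rcases hc.1 with h | h
      · exact Or.inl ⟨h1.trans (hxM' x hxA), h xM hxM⟩
      · exact Or.inr ⟨h xm hxm, (hxm' x hxA).trans h2⟩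
    have hx2 : p.2 ≤ yM.2 ∧ yM.2 ≤ q.2 ∨ p.2 ≤ ym.2 ∧ ym.2 ≤ q.2 := by
      rcases hc.2 with h | h
      · exact Or.inl ⟨h3.trans (hyM' x hxA), h yM hyM⟩
      · exact Or.inr ⟨h ym hym, (hym' x hxA).trans h4⟩
    rcases hx1 with a | a <;> rcases hx2 with b | b
    · exact hu (xM.1, yM.2) (by simp) ⟨a.1, a.2, b.1, b.2⟩
    · exact hu (xM.1, ym.2) (by simp) ⟨a.1, a.2, b.1, b.2⟩
    · exact hu (xm.1, yM.2) (by simp) ⟨a.1, a.2, b.1, b.2⟩
    · exact hu (xm.1, ym.2) (by simp) ⟨a.1, a.2, b.1, b.2⟩
  · refine ⟨∅, by simp, ?_⟩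
    intro p q _ _
    rw [not_nonempty_iff_eq_empty] at hA
    subst hA
    simp [inR]

theorem sum_union_le' {ι : Type} [DecidableEq ι] (S T : Finset ι) (f : ι → ℕ) :
    ∑ i ∈ S ∪ T, f i ≤ ∑ i ∈ S, f i + ∑ i ∈ T, f i := by
  rw [← sum_union_inter]
  exact Nat.le_add_right _ _

/-- cutting a weighted sequence -/
theorem cut (s : ℕ) (hs : 1 ≤ s) (w : ℕ → ℕ) (N : ℕ) :
    ∃ (S : Finset ℕ) (r : ℕ), r ≤ s - 1 ∧ S.card * s + r ≤ ∑ i ∈ range N, w i ∧
      (∀ k ∈ S, 0 < w k) ∧ (∀ k ∈ S, k < N) ∧
      (∀ a, (∀ k ∈ S, ¬ (a ≤ k ∧ k < N)) → ∑ i ∈ Ico a N, w i ≤ r) ∧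
      (∀ a b, b ≤ N → (∀ k ∈ S, ¬ (a ≤ k ∧ k < b)) → ∑ i ∈ Ico a b, w i ≤ s - 1) := by
  induction N with
  | zero =>
    refine ⟨∅, 0, by omega, by simp, by simp, by simp, ?_, ?_⟩
    · intro a _; simp
    · intro a b hb _
      have : b = 0 := by omega
      subst this
      simp
  | succ N ih =>
    obtain ⟨S, r, hr, hS, hpos, hlt, hend, hall⟩ := ih
    by_cases h : r + w N ≤ s - 1
    · refine ⟨S, r + w N, h, ?_, hpos, fun k hk => (hlt k hk).trans (Nat.lt_succ_self N), ?_, ?_⟩
      · rw [sum_range_succ]; omega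
      · intro a ha
        by_cases haN : a ≤ N
        · rw [sum_Ico_succ_top haN]
          have := hend a fun k hk hk' => ha k hk ⟨hk'.1, by omega⟩
          omega
        · rw [Ico_eq_empty (by omega)]
          simp
      · intro a b hb ha
        by_cases hbN : b ≤ N
        · exact hall a b hbN ha
        · have hbe : b = N + 1 := by omega
          subst hbe
          by_cases haN : a ≤ N
          · rw [sum_Ico_succ_top haN]
            have := hend a fun k hk hk' => ha k hk ⟨hk'.1, by omega⟩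
            omega
          · rw [Ico_eq_empty (by omega)]
            simp
    · have hN : N ∉ S := fun hN => absurd (hlt N hN) (lt_irrefl N)
      refine ⟨insert N S, 0, by omega, ?_, ?_, ?_, ?_, ?_⟩
      · rw [sum_range_succ, card_insert_of_notMem hN, add_mul]; omega
      · intro k hk
        rcases mem_insert.1 hk with rfl | hk
        · omega
        · exact hpos k hk
      · intro k hk
        rcases mem_insert.1 hk with rfl | hk
        · omega
        · exact (hlt k hk).trans (Nat.lt_succ_self N)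
      · intro a ha
        have : ¬ (a ≤ N ∧ N < N + 1) := ha N (mem_insert_self N S)
        rw [Ico_eq_empty (by omega)]
        simp
      · intro a b hb ha
        by_cases hbN : b ≤ N
        · exact hall a b hbN fun k hk => ha k (mem_insert_of_mem hk)
        · have hbe : b = N + 1 := by omega
          subst hbe
          have : ¬ (a ≤ N ∧ N < N + 1) := ha N (mem_insert_self N S)
          rw [Ico_eq_empty (by omega)]
          simp

/-- one chain: at most `T / s` points such that every unhit rectangle meets few points of the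
chain -/
theorem chain_cut {N : ℕ} (s : ℕ) (hs : 1 ≤ s) (B : Fin N → Finset (ℝ × ℝ)) (hch : Chain B)
    (T : Fin N → ℕ) (hT : ∀ i, T i ≤ s - 1) (hTB : ∀ i, T i ≤ (B i).card) :
    ∃ G : Finset (ℝ × ℝ), G.card * s ≤ ∑ i, T i ∧
      ∀ p q, Unhit G p q → (∀ i, (inR (B i) p q).card ≤ T i) →
        ∑ i, (inR (B i) p q).card ≤ 3 * (s - 1) := by
  classical
  set w : ℕ → ℕ := fun k => if h : k < N then T ⟨k, h⟩ else 0 with hw
  have hwv : ∀ i : Fin N, w i = T i := by
    intro i; simp [hw, i.isLt]
  obtain ⟨S, r, hr, hS, hpos, hlt, -, hall⟩ := cut s hs w N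
  have hne : ∀ k ∈ S, ∃ z : ℝ × ℝ, ∀ h : k < N, z ∈ B ⟨k, h⟩ := by
    intro k hk
    have h1 := hpos k hk
    have h2 := hlt k hk
    have h3 : w k = T ⟨k, h2⟩ := hwv ⟨k, h2⟩
    have h4 : 0 < (B ⟨k, h2⟩).card := by
      have := hTB ⟨k, h2⟩
      omega
    obtain ⟨z, hz⟩ := card_pos.1 h4
    exact ⟨z, fun _ => hz⟩
  choose! z hz using hne
  refine ⟨S.image z, ?_, ?_⟩
  · have h1 : ∑ i ∈ range N, w i = ∑ i : Fin N, T i := by
      rw [← Fin.sum_univ_eq_sum_range]
      exact sum_congr rfl fun i _ => hwv i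
    have h2 := Nat.mul_le_mul_right s (card_image_le (s := S) (f := z))
    omega
  · intro p q hu hle
    set M : Finset (Fin N) := univ.filter (fun i => (inR (B i) p q).Nonempty) with hM
    by_cases hMe : M.Nonempty
    · obtain ⟨a, haM, ha⟩ := exists_min_image M (fun i => i) hMe
      obtain ⟨b, hbM, hb⟩ := exists_max_image M (fun i => i) hMe
      have hxa : (inR (B a) p q).Nonempty := (mem_filter.1 haM).2
      have hxb : (inR (B b) p q).Nonempty := (mem_filter.1 hbM).2
      obtain ⟨x, hx⟩ := hxa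
      obtain ⟨y, hy⟩ := hxb
      rw [inR, mem_filter] at hx hy
      -- chosen blocks are not strictly between
      have hno : ∀ k ∈ S, ¬ ((a : ℕ) + 1 ≤ k ∧ k < (b : ℕ)) := by
        rintro k hk ⟨h1, h2⟩
        have hkN : k < N := hlt k hk
        have hzk := hz k hk hkN
        refine hu (z k) (mem_image_of_mem z hk) ?_
        have hak : a < (⟨k, hkN⟩ : Fin N) := Fin.lt_def.2 (by simp; omega)
        have hkb : (⟨k, hkN⟩ : Fin N) < b := Fin.lt_def.2 (by simp; omega)
        rcases hch with hch | hch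
        · have e1 := hch a ⟨k, hkN⟩ hak x hx.1 (z k) hzk
          have e2 := hch ⟨k, hkN⟩ b hkb (z k) hzk y hy.1
          exact ⟨hx.2.1.trans e1.1, e2.1.trans hy.2.2.1, hx.2.2.2.1.trans e1.2,
            e2.2.trans hy.2.2.2.2⟩
        · have e1 := hch a ⟨k, hkN⟩ hak x hx.1 (z k) hzk
          have e2 := hch ⟨k, hkN⟩ b hkb (z k) hzk y hy.1
          exact ⟨hx.2.1.trans e1.1, e2.1.trans hy.2.2.1, hy.2.2.2.1.trans e2.2,
            e1.2.trans hx.2.2.2.2⟩
      have hmid := hall ((a : ℕ) + 1) b b.isLt.le hno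
      -- split the sum
      have hsub : ∑ i, (inR (B i) p q).card ≤
          (inR (B a) p q).card + (inR (B b) p q).card +
            ∑ i ∈ univ.filter (fun i : Fin N => a < i ∧ i < b), (inR (B i) p q).card := by
        have h1 : (univ : Finset (Fin N)) ⊆
            univ.filter (fun i => ¬ (inR (B i) p q).Nonempty) ∪
              ({a} ∪ {b} ∪ univ.filter (fun i : Fin N => a < i ∧ i < b)) := by
          intro i _
          by_cases hi : (inR (B i) p q).Nonempty
          · have hiM : i ∈ M := mem_filter.2 ⟨mem_univ i, hi⟩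
            have h1 := ha i hiM
            have h2 := hb i hiM
            simp only [mem_union, mem_singleton, mem_filter, mem_univ, true_and]
            right
            rcases eq_or_lt_of_le h1 with h | h
            · left; left; exact h.symm
            · rcases eq_or_lt_of_le h2 with h' | h'
              · left; right; exact h'
              · right; exact ⟨h, h'⟩
          · exact mem_union_left _ (mem_filter.2 ⟨mem_univ i, hi⟩)
        calc ∑ i, (inR (B i) p q).card
            ≤ ∑ i ∈ univ.filter (fun i => ¬ (inR (B i) p q).Nonempty) ∪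
              ({a} ∪ {b} ∪ univ.filter (fun i : Fin N => a < i ∧ i < b)),
                (inR (B i) p q).card := sum_le_sum_of_subset h1
          _ ≤ ∑ i ∈ univ.filter (fun i => ¬ (inR (B i) p q).Nonempty), (inR (B i) p q).card +
              ∑ i ∈ ({a} ∪ {b} ∪ univ.filter (fun i : Fin N => a < i ∧ i < b)),
                (inR (B i) p q).card := sum_union_le' _ _ _
          _ = ∑ i ∈ ({a} ∪ {b} ∪ univ.filter (fun i : Fin N => a < i ∧ i < b)),
                (inR (B i) p q).card := by
              rw [sum_eq_zero, zero_add]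
              intro i hi
              rw [card_eq_zero]
              exact not_nonempty_iff_eq_empty.1 (mem_filter.1 hi).2
          _ ≤ ∑ i ∈ ({a} ∪ {b} : Finset (Fin N)), (inR (B i) p q).card +
              ∑ i ∈ univ.filter (fun i : Fin N => a < i ∧ i < b), (inR (B i) p q).card :=
                sum_union_le' _ _ _
          _ ≤ _ := by
              have := sum_union_le' ({a} : Finset (Fin N)) {b} (fun i => (inR (B i) p q).card)
              rw [sum_singleton, sum_singleton] at this
              omega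
      have hmid2 : ∑ i ∈ univ.filter (fun i : Fin N => a < i ∧ i < b), (inR (B i) p q).card ≤
          ∑ i ∈ Ico ((a : ℕ) + 1) b, w i := by
        calc ∑ i ∈ univ.filter (fun i : Fin N => a < i ∧ i < b), (inR (B i) p q).card
            ≤ ∑ i ∈ univ.filter (fun i : Fin N => a < i ∧ i < b), w i :=
              sum_le_sum fun i _ => by rw [hwv]; exact hle i
          _ = ∑ j ∈ (univ.filter (fun i : Fin N => a < i ∧ i < b)).map Fin.valEmbedding, w j := by
              rw [sum_map]; rfl
          _ ≤ ∑ i ∈ Ico ((a : ℕ) + 1) b, w i := by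
              refine sum_le_sum_of_subset fun j hj => ?_
              obtain ⟨i, hi, rfl⟩ := mem_map.1 hj
              rw [mem_filter, Fin.lt_def, Fin.lt_def] at hi
              rw [mem_Ico]
              exact ⟨hi.2.1, hi.2.2⟩
      have := (hle a).trans (hT a)
      have := (hle b).trans (hT b)
      omega
    · rw [not_nonempty_iff_eq_empty, filter_eq_empty_iff] at hMe
      rw [sum_eq_zero]
      · exact Nat.zero_le _
      · intro i hi
        rw [card_eq_zero]
        exact not_nonempty_iff_eq_empty.1 (hMe hi)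

theorem cl_net (t : ℕ) (ht : 1 ≤ t) (s : ℕ) (hs : 2 ≤ s) (A : Finset (ℝ × ℝ)) (hA : Cl t A) :
    ∃ (H : Finset (ℝ × ℝ)) (T : ℕ), T ≤ s - 1 ∧ H.card * s + 5 * T ≤ 5 * A.card ∧
      (∀ p q, Unhit H p q → (inR A p q).card ≤ 3 * t * (s - 1)) ∧
      (∀ p q, Unhit H p q → Cor A p q → (inR A p q).card ≤ T) := by
  classical
  induction hA with
  | small A h1 =>
    have hle : ∀ p q, (inR A p q).card ≤ A.card := fun p q => card_le_card (filter_subset _ _)
    refine ⟨∅, A.card, by omega, by simp, ?_, fun p q _ _ => hle p q⟩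
    intro p q _
    calc (inR A p q).card ≤ 1 := (hle p q).trans h1
      _ = 1 * 1 := rfl
      _ ≤ 3 * t * (s - 1) := Nat.mul_le_mul (by omega) (by omega)
  | node N B _ hdis hsep hch ih =>
    choose H T hT hcard hc hd using ih
    have hAcard : ((univ : Finset (Fin t × Fin N)).biUnion B).card = ∑ i, (B i).card :=
      card_biUnion (fun i _ j _ hij => hdis i j hij)
    have hsumH : ((univ : Finset (Fin t × Fin N)).biUnion H).card * s + 5 * ∑ i, T i ≤
        5 * ((univ : Finset (Fin t × Fin N)).biUnion B).card := by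
      rw [hAcard]
      have h1 : ((univ : Finset (Fin t × Fin N)).biUnion H).card ≤ ∑ i, (H i).card :=
        card_biUnion_le
      have h2 : ∑ i, ((H i).card * s + 5 * T i) ≤ ∑ i, 5 * (B i).card :=
        sum_le_sum fun i _ => hcard i
      rw [sum_add_distrib, ← sum_mul, ← mul_sum, ← mul_sum] at h2
      have h3 := Nat.mul_le_mul_right s h1
      omega
    have hTB : ∀ i, T i ≤ (B i).card := fun i => by have := hcard i; omega
    have hun : ∀ G : Finset (ℝ × ℝ), (univ : Finset (Fin t × Fin N)).biUnion H ⊆ G →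
        ∀ p q, Unhit G p q → ∀ i, Unhit (H i) p q := by
      intro G hG p q hu i y hy
      exact hu y (hG (mem_biUnion.2 ⟨i, mem_univ i, hy⟩))
    -- a rectangle meets at most one block, or few points of every block
    have hcc : ∀ p q, (∀ i, Unhit (H i) p q) →
        (∀ i, (inR (B i) p q).card ≤ T i) ∨
        (inR ((univ : Finset (Fin t × Fin N)).biUnion B) p q).card ≤ 3 * t * (s - 1) := by
      intro p q hu'
      by_cases h2 : ∃ i j, i ≠ j ∧ (inR (B i) p q).Nonempty ∧ (inR (B j) p q).Nonempty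
      · obtain ⟨i, j, hij, hi, hj⟩ := h2
        left
        intro k
        by_cases hk : (inR (B k) p q).Nonempty
        · have key : ∀ l, l ≠ k → (inR (B l) p q).Nonempty → Cor (B k) p q := by
            rintro l hlk ⟨y, hy⟩
            rw [inR, mem_filter] at hy
            obtain ⟨hyB, h1, h2, h3, h4⟩ := hy
            have hs' := hsep k l (Ne.symm hlk)
            constructor
            · rcases hs'.1 with h | h
              · exact Or.inl fun x hx => (h x hx y hyB).trans h2
              · exact Or.inr fun x hx => h1.trans (h x hx y hyB)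
            · rcases hs'.2 with h | h
              · exact Or.inl fun x hx => (h x hx y hyB).trans h4
              · exact Or.inr fun x hx => h3.trans (h x hx y hyB)
          by_cases hki : i = k
          · have hjk : j ≠ k := fun h => hij (hki.trans h.symm)
            exact hd k p q (hu' k) (key j hjk hj)
          · exact hd k p q (hu' k) (key i hki hi)
        · rw [not_nonempty_iff_eq_empty] at hk
          rw [hk, card_empty]
          exact Nat.zero_le _
      · right
        refine (inR_biUnion_card B p q).trans ?_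
        push Not at h2
        by_cases h3 : ∃ i, (inR (B i) p q).Nonempty
        · obtain ⟨i, hi⟩ := h3
          rw [sum_eq_single i]
          · exact hc i p q (hu' i)
          · intro j _ hji
            rw [h2 i j (Ne.symm hji) hi, card_empty]
          · intro h
            exact absurd (mem_univ i) h
        · push Not at h3
          rw [sum_eq_zero]
          · exact Nat.zero_le _
          · intro i _
            rw [h3 i, card_empty]
    by_cases hlt : ∑ i, T i ≤ s - 1
    · refine ⟨(univ : Finset (Fin t × Fin N)).biUnion H, ∑ i, T i, hlt, hsumH, ?_, ?_⟩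
      · intro p q hu
        rcases hcc p q (hun _ (Subset.refl _) p q hu) with h | h
        · refine ((inR_biUnion_card B p q).trans (sum_le_sum fun i _ => h i)).trans
            (hlt.trans ?_)
          calc s - 1 = 1 * (s - 1) := (one_mul _).symm
            _ ≤ 3 * t * (s - 1) := Nat.mul_le_mul_right _ (by omega)
        · exact h
      · intro p q hu hcor
        refine (inR_biUnion_card B p q).trans (sum_le_sum fun i _ => ?_)
        refine hd i p q (hun _ (Subset.refl _) p q hu i) ⟨?_, ?_⟩
        · exact hcor.1.imp (fun h x hx => h x (mem_biUnion.2 ⟨i, mem_univ i, hx⟩))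
            (fun h x hx => h x (mem_biUnion.2 ⟨i, mem_univ i, hx⟩))
        · exact hcor.2.imp (fun h x hx => h x (mem_biUnion.2 ⟨i, mem_univ i, hx⟩))
            (fun h x hx => h x (mem_biUnion.2 ⟨i, mem_univ i, hx⟩))
    · obtain ⟨K, hK, hK'⟩ := corners ((univ : Finset (Fin t × Fin N)).biUnion B)
      choose G hG hG' using fun c : Fin t => chain_cut s (by omega) (fun i => B (c, i)) (hch c)
        (fun i => T (c, i)) (fun i => hT (c, i)) (fun i => hTB (c, i))
      refine ⟨(univ : Finset (Fin t × Fin N)).biUnion H ∪ (K ∪ (univ : Finset (Fin t)).biUnion G),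
        0, by omega, ?_, ?_, ?_⟩
      · have h1 : ((univ : Finset (Fin t × Fin N)).biUnion H ∪
            (K ∪ (univ : Finset (Fin t)).biUnion G)).card ≤
            ((univ : Finset (Fin t × Fin N)).biUnion H).card +
              (4 + ∑ c, (G c).card) := by
          refine (card_union_le _ _).trans (Nat.add_le_add_left ?_ _)
          refine (card_union_le _ _).trans (Nat.add_le_add hK card_biUnion_le)
        have h2 := Nat.mul_le_mul_right s h1
        have h3 : (∑ c, (G c).card) * s ≤ ∑ i, T i := by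
          rw [sum_mul, Fintype.sum_prod_type]
          exact sum_le_sum fun c _ => hG c
        rw [add_mul, add_mul] at h2
        omega
      · intro p q hu
        rcases hcc p q (hun _ subset_union_left p q hu) with h | h
        · refine (inR_biUnion_card B p q).trans ?_
          rw [Fintype.sum_prod_type]
          calc ∑ c, ∑ i, (inR (B (c, i)) p q).card ≤ ∑ _c : Fin t, 3 * (s - 1) :=
                sum_le_sum fun c _ => hG' c p q
                  (fun y hy => hu y (mem_union_right _ (mem_union_right _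
                    (mem_biUnion.2 ⟨c, mem_univ c, hy⟩)))) (fun i => h (c, i))
            _ = 3 * t * (s - 1) := by
                rw [sum_const, card_univ, Fintype.card_fin, smul_eq_mul]; ring
        · exact h
      · intro p q hu hcor
        exact (hK' p q hcor fun y hy => hu y (mem_union_right _ (mem_union_left _ hy))).le

theorem union_net (t u : ℕ) (ht : 1 ≤ t) (s : ℕ) (hs : 2 ≤ s) (D : Fin u → Finset (ℝ × ℝ))
    (hD : ∀ j, Cl t (D j)) (hdis : ∀ i j, i ≠ j → Disjoint (D i) (D j)) :
    ∃ H : Finset (ℝ × ℝ), H.card * s ≤ 5 * ((univ : Finset (Fin u)).biUnion D).card ∧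
      ∀ p q, Unhit H p q →
        (inR ((univ : Finset (Fin u)).biUnion D) p q).card ≤ 3 * t * u * (s - 1) := by
  classical
  choose H T hT hcard hc hd using fun j => cl_net t ht s hs (D j) (hD j)
  refine ⟨(univ : Finset (Fin u)).biUnion H, ?_, ?_⟩
  · rw [card_biUnion (fun i _ j _ hij => hdis i j hij)]
    have h1 : ((univ : Finset (Fin u)).biUnion H).card ≤ ∑ i, (H i).card := card_biUnion_le
    have h2 : ∑ i, ((H i).card * s) ≤ ∑ i, 5 * (D i).card :=
      sum_le_sum fun i _ => by have := hcard i; omega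
    rw [← sum_mul, ← mul_sum] at h2
    exact (Nat.mul_le_mul_right s h1).trans h2
  · intro p q hu
    refine (inR_biUnion_card D p q).trans ?_
    calc ∑ i, (inR (D i) p q).card ≤ ∑ _i : Fin u, 3 * t * (s - 1) :=
          sum_le_sum fun i _ => hc i p q fun y hy => hu y (mem_biUnion.2 ⟨i, mem_univ i, hy⟩)
      _ = 3 * t * u * (s - 1) := by
          rw [sum_const, card_univ, Fintype.card_fin, smul_eq_mul]; ring

theorem result :
    ∀ t u : ℕ, 1 ≤ t → ∀ A : Finset (ℝ × ℝ),
      (∃ D : Fin u → Finset (ℝ × ℝ), (∀ j, Cl t (D j)) ∧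
        (∀ i j, i ≠ j → Disjoint (D i) (D j)) ∧ A = (univ : Finset (Fin u)).biUnion D) →
      (∀ k : ℕ, 1 ≤ k → ∃ H : Finset (ℝ × ℝ), k * H.card ≤ 15 * t * u * A.card ∧
        ∀ p q : ℝ × ℝ,
          k ≤ ({x ∈ A | p.1 ≤ x.1 ∧ x.1 ≤ q.1 ∧ p.2 ≤ x.2 ∧ x.2 ≤ q.2} : Finset (ℝ × ℝ)).card →
          ∃ y ∈ H, p.1 ≤ y.1 ∧ y.1 ≤ q.1 ∧ p.2 ≤ y.2 ∧ y.2 ≤ q.2) ∧
      (∃ A' : Finset (ℝ × ℝ), A'.card ≤ A.card / 2 ∧
        ∀ p q : ℝ × ℝ,
          27 * t * u + 1 ≤
            ({x ∈ A | p.1 ≤ x.1 ∧ x.1 ≤ q.1 ∧ p.2 ≤ x.2 ∧ x.2 ≤ q.2} : Finset (ℝ × ℝ)).card →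
          ∃ y ∈ A', p.1 ≤ y.1 ∧ y.1 ≤ q.1 ∧ p.2 ≤ y.2 ∧ y.2 ≤ q.2) := by
  classical
  rintro t u ht A ⟨D, hD, hdis, rfl⟩
  have main : ∀ s : ℕ, 2 ≤ s → ∃ H : Finset (ℝ × ℝ),
      H.card * s ≤ 5 * ((univ : Finset (Fin u)).biUnion D).card ∧
      ∀ p q : ℝ × ℝ, 3 * t * u * (s - 1) < (inR ((univ : Finset (Fin u)).biUnion D) p q).card →
        ∃ y ∈ H, p.1 ≤ y.1 ∧ y.1 ≤ q.1 ∧ p.2 ≤ y.2 ∧ y.2 ≤ q.2 := by
    intro s hs
    obtain ⟨H, h1, h2⟩ := union_net t u ht s hs D hD hdis
    refine ⟨H, h1, fun p q hpq => ?_⟩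
    by_contra hcon
    push Not at hcon
    exact absurd (h2 p q fun y hy hy' => absurd hy'.2.2.2
      (not_le.2 (hcon y hy hy'.1 hy'.2.1 hy'.2.2.1))) (not_le.2 hpq)
  refine ⟨?_, ?_⟩
  · intro k hk
    by_cases hkm : k ≤ 3 * t * u
    · refine ⟨(univ : Finset (Fin u)).biUnion D, ?_, ?_⟩
      · calc k * _ ≤ (3 * t * u) * ((univ : Finset (Fin u)).biUnion D).card :=
            Nat.mul_le_mul_right _ hkm
          _ ≤ 15 * t * u * ((univ : Finset (Fin u)).biUnion D).card := by
            apply Nat.mul_le_mul_right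
            nlinarith [Nat.zero_le (t * u)]
      · intro p q hpq
        obtain ⟨y, hy⟩ := card_pos.1 (lt_of_lt_of_le (by omega : 0 < k) hpq)
        rw [mem_filter] at hy
        exact ⟨y, hy.1, hy.2⟩
    · push Not at hkm
      by_cases hmt : 3 * t * u = 0
      · have ht0 : u = 0 := by
          rcases Nat.mul_eq_zero.1 hmt with h | h
          · omega
          · exact h
        subst ht0
        refine ⟨∅, by simp, ?_⟩
        intro p q hpq
        exfalso
        have : ((univ : Finset (Fin 0)).biUnion D) = ∅ := by simp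
        rw [this] at hpq
        simp at hpq
        omega
      · have hmt' : 0 < 3 * t * u := Nat.pos_of_ne_zero hmt
        have h1 : 1 ≤ (k - 1) / (3 * t * u) := (Nat.one_le_div_iff hmt').2 (by omega)
        obtain ⟨H, hH1, hH2⟩ := main ((k - 1) / (3 * t * u) + 1) (by omega)
        refine ⟨H, ?_, ?_⟩
        · have h2 : k ≤ 3 * t * u * ((k - 1) / (3 * t * u) + 1) := by
            have := Nat.lt_mul_div_succ (k - 1) hmt'
            omega
          calc k * H.card ≤ (3 * t * u * ((k - 1) / (3 * t * u) + 1)) * H.card :=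
                Nat.mul_le_mul_right _ h2
            _ = (3 * t * u) * (H.card * ((k - 1) / (3 * t * u) + 1)) := by ring
            _ ≤ (3 * t * u) * (5 * ((univ : Finset (Fin u)).biUnion D).card) :=
                Nat.mul_le_mul_left _ hH1
            _ = 15 * t * u * ((univ : Finset (Fin u)).biUnion D).card := by ring
        · intro p q hpq
          refine hH2 p q (lt_of_lt_of_le ?_ hpq)
          have : 3 * t * u * ((k - 1) / (3 * t * u)) ≤ k - 1 := Nat.mul_div_le _ _
          rw [Nat.add_sub_cancel]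
          omega
  · obtain ⟨H, hH1, hH2⟩ := main 10 (by norm_num)
    refine ⟨H, by omega, ?_⟩
    intro p q hpq
    refine hH2 p q (lt_of_lt_of_le ?_ hpq)
    have : 3 * t * u * (10 - 1) = 27 * t * u := by
      show 3 * t * u * 9 = 27 * t * u
      ring
    omega

end Pool.Agent.Results.MP_b9c629_co.SubstitutionClosure
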